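import Pool.Agent.H857.SG.Core

/-! B2: groups of signed permutations over the symmetric group. -/

set_option autoImplicit false

namespace Pool.Agent.H344.SGB2

open Pool.Agent.H857.SG Equiv

/-- the hypotheses on the group -/
structure Grp {g : ℕ} (G : Set (Equiv.Perm (Fin g) × (Fin g → ℤ))) : Prop where
  hg : 5 ≤ g
  sgn : ∀ t ∈ G, ∀ i, t.2 i = 1 ∨ t.2 i = -1
  mul : ∀ t ∈ G, ∀ u ∈ G, (u.1 * t.1, fun i => t.2 i * u.2 (t.1 i)) ∈ G
  lift : ∀ π : Equiv.Perm (Fin g), ∃ s, (π, s) ∈ G
  neg : (1, fun _ => -1) ∈ G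

variable {g : ℕ} {G : Set (Equiv.Perm (Fin g) × (Fin g → ℤ))}

theorem ex_notin (hg : 5 ≤ g) (S : Finset (Fin g)) (hS : S.card ≤ 4) : ∃ m, m ∉ S := by
  by_contra h
  push Not at h
  have h1 : S = Finset.univ := Finset.eq_univ_iff_forall.2 h
  rw [h1, Finset.card_univ, Fintype.card_fin] at hS
  omega

theorem ais (π : Equiv.Perm (Fin g)) (x : Fin g) : π (π⁻¹ x) = x := π.apply_symm_apply x

theorem ias (π : Equiv.Perm (Fin g)) (x : Fin g) : π⁻¹ (π x) = x := π.symm_apply_apply x

theorem sq (h : Grp G) {π : Equiv.Perm (Fin g)} {s : Fin g → ℤ} (ht : (π, s) ∈ G) (i : Fin g) :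
    s i * s i = 1 := by
  have h1 := h.sgn _ ht i
  simp only at h1
  rcases h1 with h1 | h1 <;> rw [h1] <;> norm_num

theorem inv_mem (h : Grp G) {π : Equiv.Perm (Fin g)} {s : Fin g → ℤ} (ht : (π, s) ∈ G) :
    (π⁻¹, fun i => s (π⁻¹ i)) ∈ G := by
  obtain ⟨s', hs'⟩ := h.lift π⁻¹
  have h2 := h.mul _ ht _ hs'
  have h3 := h.mul _ hs' _ h2
  have e : ((π⁻¹ * π * π⁻¹ : Equiv.Perm (Fin g)),
      fun i => s' i * (s (π⁻¹ i) * s' (π (π⁻¹ i)))) = (π⁻¹, fun i => s (π⁻¹ i)) := by
    refine Prod.ext ?_ ?_
    · simp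
    · funext i
      have h4 := sq h hs' i
      simp only [ais]
      calc s' i * (s (π⁻¹ i) * s' i) = s (π⁻¹ i) * (s' i * s' i) := by ring
        _ = s (π⁻¹ i) := by rw [h4, mul_one]
  rw [← e]
  exact h3

theorem quot (h : Grp G) {π : Equiv.Perm (Fin g)} {s u : Fin g → ℤ} (hs : (π, s) ∈ G)
    (hu : (π, u) ∈ G) : ((1 : Equiv.Perm (Fin g)), fun i => u i * s i) ∈ G := by
  have h1 := h.mul _ hu _ (inv_mem h hs)
  have e : ((π⁻¹ * π : Equiv.Perm (Fin g)), fun i => u i * s (π⁻¹ (π i))) =
      (1, fun i => u i * s i) := by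
    refine Prod.ext ?_ ?_
    · simp
    · funext i
      simp only [ias]
  rw [← e]
  exact h1

theorem conj (h : Grp G) {π τ : Equiv.Perm (Fin g)} {s w : Fin g → ℤ} (hs : (π, s) ∈ G)
    (hw : (τ, w) ∈ G) :
    ((τ⁻¹ * π * τ : Equiv.Perm (Fin g)), fun a => w a * (s (τ a) * w (τ⁻¹ (π (τ a))))) ∈ G :=
  h.mul _ hw _ (h.mul _ hs _ (inv_mem h hw))

theorem conjN (h : Grp G) {ν : Fin g → ℤ} (hν : ((1 : Equiv.Perm (Fin g)), ν) ∈ G)
    (π : Equiv.Perm (Fin g)) : ((1 : Equiv.Perm (Fin g)), fun i => ν (π i)) ∈ G := by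
  obtain ⟨s, hs⟩ := h.lift π
  have h1 := conj h hν hs
  have e : ((π⁻¹ * 1 * π : Equiv.Perm (Fin g)),
      fun a => s a * (ν (π a) * s (π⁻¹ ((1 : Equiv.Perm (Fin g)) (π a))))) =
      (1, fun i => ν (π i)) := by
    refine Prod.ext ?_ ?_
    · simp
    · funext i
      simp only [Equiv.Perm.one_apply, ias]
      calc s i * (ν (π i) * s i) = ν (π i) * (s i * s i) := by ring
        _ = ν (π i) := by rw [sq h hs, mul_one]
  rw [← e]
  exact h1

/-- sign change at two places -/
def dl (i j : Fin g) (k : Fin g) : ℤ := if k = i ∨ k = j then -1 else 1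

theorem ex_perm {i j k l : Fin g} (hij : i ≠ j) (hkl : k ≠ l) :
    ∃ π : Equiv.Perm (Fin g), π k = i ∧ π l = j := by
  refine ⟨swap (swap k i l) j * swap k i, ?_, ?_⟩
  · have h1 : swap k i l ≠ i := by
      intro h2
      have h3 : swap k i l = swap k i k := by rw [h2, swap_apply_left]
      exact hkl ((swap k i).injective h3).symm
    rw [Equiv.Perm.mul_apply, swap_apply_left, swap_apply_of_ne_of_ne h1.symm hij]
  · rw [Equiv.Perm.mul_apply, swap_apply_left]

theorem all_dl (h : Grp G) {ν : Fin g → ℤ} (hν : ((1 : Equiv.Perm (Fin g)), ν) ∈ G)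
    {i j : Fin g} (hij : ν i ≠ ν j) {k l : Fin g} (hkl : k ≠ l) :
    ((1 : Equiv.Perm (Fin g)), dl k l) ∈ G := by
  have hne : i ≠ j := fun h1 => hij (by rw [h1])
  have h2 := quot h (conjN h hν (swap i j)) hν
  have h3 : (fun m => ν m * ν (swap i j m)) = dl i j := by
    funext m
    unfold dl
    have hi := h.sgn _ hν i
    have hj := h.sgn _ hν j
    simp only at hi hj
    by_cases h4 : m = i
    · rw [if_pos (Or.inl h4), h4, swap_apply_left]
      rcases hi with hi | hi <;> rcases hj with hj | hj <;> rw [hi, hj] at hij ⊢ <;>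
        first | exact absurd rfl hij | norm_num
    · by_cases h5 : m = j
      · rw [if_pos (Or.inr h5), h5, swap_apply_right]
        rcases hi with hi | hi <;> rcases hj with hj | hj <;> rw [hi, hj] at hij ⊢ <;>
          first | exact absurd rfl hij | norm_num
      · rw [if_neg (by tauto), swap_apply_of_ne_of_ne h4 h5]
        exact sq h hν m
  rw [h3] at h2
  obtain ⟨π, hk, hl⟩ := ex_perm hne hkl
  have h4 := conjN h h2 π
  have h5 : (fun m => dl i j (π m)) = dl k l := by
    funext m
    unfold dl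
    have e1 : π m = i ↔ m = k := by rw [← hk]; exact π.injective.eq_iff
    have e2 : π m = j ↔ m = l := by rw [← hl]; exact π.injective.eq_iff
    simp only [e1, e2]
  rw [h5] at h4
  exact h4

section R

variable {R : AddSubgroup (Fin g → ℤ)}

/-- the hypotheses on the relations -/
structure Rel (G : Set (Equiv.Perm (Fin g) × (Fin g → ℤ))) (R : AddSubgroup (Fin g → ℤ)) :
    Prop where
  act : ∀ t ∈ G, ∀ x ∈ R, (fun i => t.2 i * x (t.1 i)) ∈ R
  sat : ∀ (n : ℤ) (x : Fin g → ℤ), n ≠ 0 → n • x ∈ R → x ∈ R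

theorem all_single (h : Grp G) (hR : Rel G R) {i : Fin g}
    (hi : (Pi.single i 1 : Fin g → ℤ) ∈ R) (j : Fin g) : (Pi.single j 1 : Fin g → ℤ) ∈ R := by
  obtain ⟨s, hs⟩ := h.lift (swap j i)
  have h1 := hR.act _ hs _ hi
  have h2 : (fun k => s k * (Pi.single i 1 : Fin g → ℤ) (swap j i k)) =
      s j • (Pi.single j 1 : Fin g → ℤ) := by
    funext k
    by_cases hk : k = j
    · subst hk
      rw [swap_apply_left, Pi.single_eq_same, Pi.smul_apply, Pi.single_eq_same, smul_eq_mul]
    · have h3 : swap j i k ≠ i := by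
        intro h4
        apply hk
        have h5 : swap j i k = swap j i j := by rw [h4, swap_apply_left]
        exact (swap j i).injective h5
      rw [Pi.single_eq_of_ne h3, Pi.smul_apply, Pi.single_eq_of_ne hk, smul_eq_mul]
      simp
  simp only at h1
  rw [h2] at h1
  have h3 := sq h hs j
  exact hR.sat _ _ (fun h4 => by rw [h4] at h3; simp at h3) h1

theorem not_all {e : Fin g → ℤ} (he : Exo (fun x => x ∈ R) e)
    (h : ∀ j, (Pi.single j 1 : Fin g → ℤ) ∈ R) : False := by
  have h1 : ∀ (j : Fin g) (n : ℤ), (Pi.single j n : Fin g → ℤ) ∈ R := by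
    intro j n
    have h2 : (Pi.single j n : Fin g → ℤ) = n • Pi.single j 1 := by
      rw [← Pi.single_smul, smul_eq_mul, mul_one]
    rw [h2]
    exact R.zsmul_mem (h j) n
  obtain ⟨i, hi⟩ := he.ne
  by_cases h2 : ∃ j, j ≠ i ∧ e j ≠ 0
  · obtain ⟨j, hji, hj⟩ := h2
    exact he.pair i j hji.symm hi hj (R.add_mem (h1 _ _) (h1 _ _))
  · push Not at h2
    have h3 : ∑ k, e k = e i := Finset.sum_eq_single i (fun k _ hk => h2 k hk)
      (fun h4 => absurd (Finset.mem_univ i) h4)
    have h4 := he.even
    rw [h3] at h4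
    obtain ⟨r, hr⟩ := h4
    refine he.two i ?_ (h i)
    rcases abs_cases (e i) with ⟨h5, h6⟩ | ⟨h5, h6⟩ <;> rw [h5] <;> omega

theorem single_of_dl (h : Grp G) (hR : Rel G R)
    (hd : ∀ k l : Fin g, k ≠ l → ((1 : Equiv.Perm (Fin g)), dl k l) ∈ G)
    {x : Fin g → ℤ} (hx : x ∈ R) {i : Fin g} (hi : x i ≠ 0) :
    (Pi.single i 1 : Fin g → ℤ) ∈ R := by
  obtain ⟨j, hj⟩ := ex_notin h.hg {i} (by simp)
  obtain ⟨k, hk⟩ := ex_notin h.hg {i, j} (Finset.card_le_two.trans (by norm_num))
  simp only [Finset.mem_singleton, Finset.mem_insert, not_or] at hj hk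
  have h1 := R.sub_mem hx (hR.act _ (hd i j (Ne.symm hj)) _ hx)
  obtain ⟨y, hy⟩ : ∃ y : Fin g → ℤ, ∀ m, y m = if m = i ∨ m = j then x m else 0 :=
    ⟨_, fun _ => rfl⟩
  have y1 : ∀ m, m = i ∨ m = j → y m = x m := fun m hm => by rw [hy, if_pos hm]
  have y2 : ∀ m, ¬ (m = i ∨ m = j) → y m = 0 := fun m hm => by rw [hy, if_neg hm]
  have h2 : (x - fun m => (dl i j m) * x ((1 : Equiv.Perm (Fin g)) m)) = (2 : ℤ) • y := by
    funext m
    simp only [Pi.sub_apply, Pi.smul_apply, smul_eq_mul, Equiv.Perm.one_apply, dl]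
    by_cases hm : m = i ∨ m = j
    · rw [if_pos hm, y1 m hm]
      ring
    · rw [if_neg hm, y2 m hm]
      ring
  simp only at h1
  rw [h2] at h1
  have h3 := hR.sat _ _ (by norm_num) h1
  have h4 := R.add_mem h3 (hR.act _ (hd j k (Ne.symm hk.2)) _ h3)
  have h5 : (y + fun m => (dl j k m) * y ((1 : Equiv.Perm (Fin g)) m)) =
      (2 * x i) • (Pi.single i 1 : Fin g → ℤ) := by
    funext m
    simp only [Pi.add_apply, Pi.smul_apply, smul_eq_mul, Equiv.Perm.one_apply, dl]
    by_cases hmi : m = i
    · have a2 : ¬ (m = j ∨ m = k) := by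
        rintro (h6 | h6)
        · exact hj (h6.symm.trans hmi)
        · exact hk.1 (h6.symm.trans hmi)
      rw [if_neg a2, y1 m (Or.inl hmi), hmi, Pi.single_eq_same]
      ring
    · rw [Pi.single_eq_of_ne hmi, mul_zero]
      by_cases hmj : m = j
      · rw [if_pos (Or.inl hmj), y1 m (Or.inr hmj)]
        ring
      · rw [y2 m (by tauto)]
        ring
  simp only at h4
  rw [h5] at h4
  exact hR.sat _ _ (by simpa using hi) h4

theorem constN (h : Grp G) (hR : Rel G R) {e : Fin g → ℤ} (he : Exo (fun x => x ∈ R) e)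
    {ν : Fin g → ℤ} (hν : ((1 : Equiv.Perm (Fin g)), ν) ∈ G) (i j : Fin g) : ν i = ν j := by
  by_contra hij
  obtain ⟨k, hk⟩ := he.ne
  have h1 := single_of_dl h hR (fun k l hkl => all_dl h hν hij hkl) he.rel hk
  exact not_all he (all_single h hR h1)

theorem lift0 (h : Grp G) (hR : Rel G R) {e : Fin g → ℤ} (he : Exo (fun x => x ∈ R) e)
    (z i : Fin g) : ∃ s, (swap z i, s) ∈ G ∧ s z = s i ∧ (∀ k, k ≠ z → k ≠ i → s k = 1) ∧
      (i = z → s i = 1) := by
  by_cases hiz : i = z
  · obtain ⟨s, hs⟩ := h.lift 1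
    have h1 := quot h hs hs
    refine ⟨fun i => s i * s i, ?_, ?_, ?_, ?_⟩
    · rw [hiz, swap_self]
      exact h1
    · rw [hiz]
    · intro k _ _
      exact sq h hs k
    · intro _
      exact sq h hs i
  · obtain ⟨s, hs⟩ := h.lift (swap z i)
    have h1 : s z = s i := by
      have h2 := h.mul _ hs _ hs
      simp only [swap_mul_self] at h2
      obtain ⟨k, hk⟩ := ex_notin h.hg {z, i} (Finset.card_le_two.trans (by norm_num))
      simp only [Finset.mem_singleton, Finset.mem_insert, not_or] at hk
      have h3 := constN h hR he h2 z k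
      simp only [swap_apply_left] at h3
      rw [swap_apply_of_ne_of_ne hk.1 hk.2, sq h hs k] at h3
      have h4 := sq h hs i
      calc s z = s z * (s i * s i) := by rw [h4, mul_one]
        _ = (s z * s i) * s i := by ring
        _ = s i := by rw [h3, one_mul]
    have h2 : ∀ k l, k ≠ z → k ≠ i → l ≠ z → l ≠ i → s k = s l := by
      intro k l hkz hki hlz hli
      by_cases hkl : k = l
      · rw [hkl]
      obtain ⟨w, hw⟩ := h.lift (swap k l)
      have h3 := conj h hs hw
      have h4 : ((swap k l)⁻¹ * swap z i * swap k l : Equiv.Perm (Fin g)) = swap z i := by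
        rw [swap_inv]
        ext a
        simp only [Equiv.Perm.mul_apply]
        by_cases ha : a = k
        · subst ha
          rw [swap_apply_left, swap_apply_of_ne_of_ne hlz hli, swap_apply_right,
            swap_apply_of_ne_of_ne hkz hki]
        · by_cases hb : a = l
          · subst hb
            rw [swap_apply_right, swap_apply_of_ne_of_ne hkz hki, swap_apply_left,
              swap_apply_of_ne_of_ne hlz hli]
          · rw [swap_apply_of_ne_of_ne ha hb]
            by_cases hc : a = z
            · subst hc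
              rw [swap_apply_left, swap_apply_of_ne_of_ne (Ne.symm hki) (Ne.symm hli)]
            · by_cases hd : a = i
              · subst hd
                rw [swap_apply_right, swap_apply_of_ne_of_ne (Ne.symm hkz) (Ne.symm hlz)]
              · rw [swap_apply_of_ne_of_ne hc hd, swap_apply_of_ne_of_ne ha hb]
      rw [h4] at h3
      have h5 := quot h hs h3
      obtain ⟨m, hm⟩ := ex_notin h.hg {z, i, k, l}
        ((Finset.card_insert_le _ _).trans (Nat.succ_le_succ
          ((Finset.card_insert_le _ _).trans (Nat.succ_le_succ Finset.card_le_two))))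
      simp only [Finset.mem_singleton, Finset.mem_insert, not_or] at hm
      have h6 := constN h hR he h5 k m
      simp only [swap_apply_left, swap_inv] at h6
      rw [swap_apply_of_ne_of_ne hlz hli, swap_apply_right,
        swap_apply_of_ne_of_ne hm.2.2.1 hm.2.2.2, swap_apply_of_ne_of_ne hm.1 hm.2.1,
        swap_apply_of_ne_of_ne hm.2.2.1 hm.2.2.2] at h6
      have e1 := sq h hw k
      have e2 := sq h hw m
      have e3 := sq h hs m
      have e4 := sq h hs l
      have h7 : s l * s k = 1 := by
        calc s l * s k = (w k * w k) * (s l * s k) := by rw [e1, one_mul]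
          _ = w k * (s l * w k) * s k := by ring
          _ = w m * (s m * w m) * s m := h6
          _ = (w m * w m) * (s m * s m) := by ring
          _ = 1 := by rw [e2, e3, one_mul]
      calc s k = (s l * s l) * s k := by rw [e4, one_mul]
        _ = s l * (s l * s k) := by ring
        _ = s l := by rw [h7, mul_one]
    obtain ⟨k0, hk0⟩ := ex_notin h.hg {z, i} (Finset.card_le_two.trans (by norm_num))
    simp only [Finset.mem_singleton, Finset.mem_insert, not_or] at hk0
    have h3 := h.sgn _ hs k0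
    simp only at h3
    rcases h3 with h3 | h3
    · exact ⟨s, hs, h1, fun k hk hk' => by rw [h2 k k0 hk hk' hk0.1 hk0.2, h3],
        fun h4 => absurd h4 hiz⟩
    · have h4 := h.mul _ hs _ h.neg
      simp only [one_mul] at h4
      refine ⟨_, h4, ?_, ?_, fun h5 => absurd h5 hiz⟩
      · simp only [h1]
      · intro k hk hk'
        simp only [h2 k k0 hk hk' hk0.1 hk0.2, h3]
        norm_num

/-- the permutation `π` has a lift which fixes `c` -/
def Fx (G : Set (Equiv.Perm (Fin g) × (Fin g → ℤ))) (c : Fin g → ℤ) (π : Equiv.Perm (Fin g)) :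
    Prop := ∃ s, (π, s) ∈ G ∧ ∀ k, s k * c (π k) = c k

theorem Fx.mul (h : Grp G) {c : Fin g → ℤ} {π ρ : Equiv.Perm (Fin g)} (hπ : Fx G c π)
    (hρ : Fx G c ρ) : Fx G c (ρ * π) := by
  obtain ⟨s, hs, hs'⟩ := hπ
  obtain ⟨u, hu, hu'⟩ := hρ
  refine ⟨_, h.mul _ hs _ hu, fun k => ?_⟩
  simp only [Equiv.Perm.mul_apply]
  calc s k * u (π k) * c (ρ (π k)) = s k * (u (π k) * c (ρ (π k))) := by ring
    _ = c k := by rw [hu', hs']

theorem Fx_all (h : Grp G) {c : Fin g → ℤ} {z : Fin g} (hz : ∀ i, Fx G c (swap z i))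
    (π : Equiv.Perm (Fin g)) : Fx G c π := by
  have h1 : Fx G c 1 := by
    have := hz z
    rwa [swap_self] at this
  have hs : ∀ x y : Fin g, x ≠ y → Fx G c (swap x y) := by
    intro x y hxy
    by_cases hx : x = z
    · rw [hx]; exact hz y
    by_cases hy : y = z
    · rw [hy, swap_comm]; exact hz x
    have e := swap_mul_swap_mul_swap (x := y) (y := z) (z := x) hy (Ne.symm hxy)
    rw [← e, swap_comm y z]
    exact Fx.mul h (hz x) (Fx.mul h (hz y) (hz x))
  refine Equiv.Perm.swap_induction_on π h1 ?_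
  intro f x y hxy hf
  exact Fx.mul h hf (hs x y hxy)

end R

theorem b2 : B2 := by
  intro g hg G R e hsg hmul hlift hneg hact hsat he
  have h : Grp G := ⟨hg, hsg, hmul, hlift, hneg⟩
  have hR : Rel G R := ⟨hact, hsat⟩
  have hg0 : 0 < g := by omega
  set z : Fin g := ⟨0, hg0⟩ with hzdef
  choose S hS1 hS2 hS3 hS4 using lift0 h hR he z
  set c : Fin g → ℤ := fun i => S i i with hc
  have hcz : c z = 1 := hS4 z rfl
  have hc1 : ∀ i, c i = 1 ∨ c i = -1 := fun i => hsg _ (hS1 i) i
  have hcc : ∀ i, c i * c i = 1 := fun i => by rcases hc1 i with h1 | h1 <;> rw [h1] <;> norm_num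
  have hz : ∀ i, Fx G c (swap z i) := by
    intro i
    refine ⟨S i, hS1 i, fun k => ?_⟩
    by_cases hk : k = z
    · rw [hk, swap_apply_left, hcz, hS2 i]
      exact hcc i
    · by_cases hki : k = i
      · rw [hki, swap_apply_right, hcz, mul_one]
      · rw [swap_apply_of_ne_of_ne hk hki, hS3 i k hk hki, one_mul]
  have hF := Fx_all h hz
  have hperm : ∀ (y : Fin g → ℤ), (fun k => c k * y k) ∈ R → ∀ π : Equiv.Perm (Fin g),
      (fun k => c k * y (π k)) ∈ R := by
    intro y hy π
    obtain ⟨s, hs, hs'⟩ := hF π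
    have h1 := hact _ hs _ hy
    have h2 : (fun i => s i * (c (π i) * y (π i))) = fun k => c k * y (π k) := by
      funext k
      rw [← mul_assoc, hs']
    simp only at h1
    rw [h2] at h1
    exact h1
  have hsat' : ∀ (n : ℤ) (y : Fin g → ℤ), n ≠ 0 → (fun k => c k * (n * y k)) ∈ R →
      (fun k => c k * y k) ∈ R := by
    intro n y hn hy
    refine hsat n _ hn ?_
    have h2 : (n • fun k => c k * y k) = fun k => c k * (n * y k) := by
      funext k
      simp only [Pi.smul_apply, smul_eq_mul]
      ring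
    rw [h2]
    exact hy
  have hsing : ∀ i, (fun k => c k * (Pi.single i 1 : Fin g → ℤ) k) ∈ R →
      (Pi.single i 1 : Fin g → ℤ) ∈ R := by
    intro i hi
    refine hsat (c i) _ (fun h1 => by have := hcc i; rw [h1] at this; simp at this) ?_
    have h2 : (c i • (Pi.single i 1 : Fin g → ℤ)) =
        fun k => c k * (Pi.single i 1 : Fin g → ℤ) k := by
      funext k
      by_cases hk : k = i
      · subst hk; rw [Pi.smul_apply, smul_eq_mul]
      · rw [Pi.smul_apply, Pi.single_eq_of_ne hk, smul_eq_mul, mul_zero, mul_zero]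
    rw [h2]
    exact hi
  have hconst : ∀ x ∈ R, ∀ i j, c i * x i = c j * x j := by
    intro x hx i j
    by_contra hne
    have hij : i ≠ j := fun h1 => hne (by rw [h1])
    have hx' : (fun k => c k * (c k * x k)) ∈ R := by
      have h2 : (fun k => c k * (c k * x k)) = x := by
        funext k
        rw [← mul_assoc, hcc, one_mul]
      rw [h2]
      exact hx
    have h1 := R.sub_mem hx' (hperm (fun k => c k * x k) hx' (swap i j))
    have h2 : ((fun k => c k * (c k * x k)) -
        fun k => c k * (c (swap i j k) * x (swap i j k))) = fun k => c k *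
          ((c i * x i - c j * x j) *
            ((Pi.single i 1 : Fin g → ℤ) k - (Pi.single j 1 : Fin g → ℤ) k)) := by
      funext k
      simp only [Pi.sub_apply]
      by_cases hk : k = i
      · subst hk
        rw [swap_apply_left, Pi.single_eq_same, Pi.single_eq_of_ne hij]
        ring
      · by_cases hk' : k = j
        · subst hk'
          rw [swap_apply_right, Pi.single_eq_same, Pi.single_eq_of_ne (Ne.symm hij)]
          ring
        · rw [swap_apply_of_ne_of_ne hk hk', Pi.single_eq_of_ne hk, Pi.single_eq_of_ne hk']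
          ring
    rw [h2] at h1
    have h3 := hsat' (c i * x i - c j * x j)
      (fun k => (Pi.single i 1 : Fin g → ℤ) k - (Pi.single j 1 : Fin g → ℤ) k)
      (sub_ne_zero.2 hne) h1
    have h4 : ∀ k l, k ≠ l →
        (fun m => c m * ((Pi.single k 1 : Fin g → ℤ) m - (Pi.single l 1 : Fin g → ℤ) m)) ∈ R := by
      intro k l hkl
      obtain ⟨π, hk, hl⟩ := ex_perm hij hkl
      have h5 := hperm _ h3 π
      have h6 : (fun m => c m * ((Pi.single i 1 : Fin g → ℤ) (π m) -
          (Pi.single j 1 : Fin g → ℤ) (π m))) =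
          fun m => c m * ((Pi.single k 1 : Fin g → ℤ) m - (Pi.single l 1 : Fin g → ℤ) m) := by
        funext m
        have e1 : π m = i ↔ m = k := by rw [← hk]; exact π.injective.eq_iff
        have e2 : π m = j ↔ m = l := by rw [← hl]; exact π.injective.eq_iff
        simp only [Pi.single_apply, e1, e2]
      rw [h6] at h5
      exact h5
    -- the signs
    have h5 : ∀ k l, k ≠ l → e k ≠ 0 → e l ≠ 0 → 0 < (c k * e k) * (c l * e l) := by
      intro k l hkl hek hel
      by_contra h6
      have hck : c k ≠ 0 := fun h7 => by have := hcc k; rw [h7] at this; simp at this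
      have hcl : c l ≠ 0 := fun h7 => by have := hcc l; rw [h7] at this; simp at this
      have h7 : (c k * e k) * (c l * e l) < 0 :=
        lt_of_le_of_ne (not_lt.1 h6) (mul_ne_zero (mul_ne_zero hck hek) (mul_ne_zero hcl hel))
      have h8 : (e k).sign * c k = -((e l).sign * c l) := by
        have h9 : (c k * e k * (c l * e l)).sign = -1 := Int.sign_eq_neg_one_of_neg h7
        rw [Int.sign_mul, Int.sign_mul, Int.sign_mul] at h9
        rcases hc1 k with a | a <;> rcases hc1 l with b | b <;>
          rcases Int.sign_trichotomy (e k) with c' | c' | c' <;>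
          rcases Int.sign_trichotomy (e l) with d | d | d <;>
          rw [a, b, c', d] at h9 ⊢ <;> simp at h9 ⊢
      refine he.pair k l hkl hek hel ?_
      have h9 := R.zsmul_mem (h4 k l hkl) ((e k).sign * c k)
      have h10 : ((e k).sign * c k) • (fun m => c m * ((Pi.single k 1 : Fin g → ℤ) m -
          (Pi.single l 1 : Fin g → ℤ) m)) = Pi.single k (e k).sign + Pi.single l (e l).sign := by
        funext m
        simp only [Pi.smul_apply, smul_eq_mul, Pi.add_apply]
        by_cases hm : m = k
        · subst hm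
          rw [Pi.single_eq_same, Pi.single_eq_of_ne hkl, Pi.single_eq_same,
            Pi.single_eq_of_ne hkl]
          have := hcc m
          linear_combination ((e m).sign) * this
        · by_cases hm' : m = l
          · subst hm'
            rw [Pi.single_eq_same, Pi.single_eq_of_ne hm, Pi.single_eq_of_ne hm,
              Pi.single_eq_same]
            have := hcc m
            rw [h8]
            linear_combination ((e m).sign) * this
          · rw [Pi.single_eq_of_ne hm, Pi.single_eq_of_ne hm', Pi.single_eq_of_ne hm,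
              Pi.single_eq_of_ne hm']
            ring
      rw [h10] at h9
      exact h9
    have h6 : ∑ k, c k * e k ≠ 0 := by
      obtain ⟨i0, hi0⟩ := he.ne
      have hci : c i0 ≠ 0 := fun h7 => by have := hcc i0; rw [h7] at this; simp at this
      intro h7
      have h8 : (c i0 * e i0) * ∑ k, c k * e k = 0 := by rw [h7, mul_zero]
      rw [Finset.mul_sum] at h8
      have h9 : ∀ k ∈ (Finset.univ : Finset (Fin g)), 0 ≤ c i0 * e i0 * (c k * e k) := by
        intro k _
        by_cases hk : k = i0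
        · rw [hk]; exact mul_self_nonneg _
        · by_cases hek : e k = 0
          · rw [hek]; simp
          · exact (h5 i0 k (Ne.symm hk) hi0 hek).le
      have h10 := (Finset.sum_eq_zero_iff_of_nonneg h9).1 h8 i0 (Finset.mem_univ _)
      exact (mul_ne_zero (mul_ne_zero hci hi0) (mul_ne_zero hci hi0)) h10
    -- so `d_z` is in `R`
    have h7 : (fun k => c k * (c k * e k)) ∈ R := by
      have h8 : (fun k => c k * (c k * e k)) = e := by
        funext k
        rw [← mul_assoc, hcc, one_mul]
      rw [h8]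
      exact he.rel
    have h8 : ∀ k ∈ (Finset.univ : Finset (Fin g)), (c k * e k) • (fun m => c m *
        ((Pi.single k 1 : Fin g → ℤ) m - (Pi.single z 1 : Fin g → ℤ) m)) ∈ R := by
      intro k _
      refine R.zsmul_mem ?_ _
      by_cases hk : k = z
      · rw [hk]
        have : (fun m => c m * ((Pi.single z 1 : Fin g → ℤ) m - (Pi.single z 1 : Fin g → ℤ) m)) =
            0 := by
          funext m
          simp
        rw [this]
        exact R.zero_mem
      · exact h4 k z hk
    have h9 := R.sub_mem h7 (R.sum_mem h8)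
    have h10 : ((fun k => c k * (c k * e k)) - ∑ k, (c k * e k) • (fun m => c m *
        ((Pi.single k 1 : Fin g → ℤ) m - (Pi.single z 1 : Fin g → ℤ) m))) =
        fun m => c m * ((∑ k, c k * e k) * (Pi.single z 1 : Fin g → ℤ) m) := by
      funext m
      simp only [Pi.sub_apply, Finset.sum_apply, Pi.smul_apply, smul_eq_mul]
      have h11 : ∑ k, c k * e k * (c m * ((Pi.single k 1 : Fin g → ℤ) m -
          (Pi.single z 1 : Fin g → ℤ) m)) = c m * (c m * e m) -
          c m * ((∑ k, c k * e k) * (Pi.single z 1 : Fin g → ℤ) m) := by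
        have h12 : ∀ k, c k * e k * (c m * ((Pi.single k 1 : Fin g → ℤ) m -
          (Pi.single z 1 : Fin g → ℤ) m)) = c m * ((c k * e k) * (Pi.single k 1 : Fin g → ℤ) m) -
            c m * ((c k * e k) * (Pi.single z 1 : Fin g → ℤ) m) := fun k => by ring
        rw [Finset.sum_congr rfl fun k _ => h12 k, Finset.sum_sub_distrib, ← Finset.mul_sum,
          ← Finset.mul_sum, ← Finset.sum_mul]
        congr 2
        rw [Finset.sum_eq_single m]
        · rw [Pi.single_eq_same, mul_one]
        · intro k _ hk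
          rw [Pi.single_eq_of_ne (Ne.symm hk), mul_zero]
        · intro h13; exact absurd (Finset.mem_univ m) h13
      rw [h11]
      ring
    rw [h10] at h9
    have h11 := hsing z (hsat' _ _ h6 h9)
    exact not_all he (all_single h hR h11)
  have hmul' : ∀ x ∈ R, ∃ n : ℤ, x = n • c := by
    intro x hx
    refine ⟨c z * x z, ?_⟩
    funext k
    rw [Pi.smul_apply, smul_eq_mul, hconst x hx z k]
    calc x k = (c k * c k) * x k := by rw [hcc, one_mul]
      _ = c k * x k * c k := by ring
  refine ⟨c, hc1, ?_, ?_, hmul'⟩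
  · intro t ht
    obtain ⟨s, hs, hs'⟩ := hF t.1
    have h1 := quot h hs (show (t.1, t.2) ∈ G from ht)
    have h2 := constN h hR he h1
    have h3 : ∀ i, t.2 i = (t.2 z * s z) * s i := by
      intro i
      have h4 := h2 i z
      rw [← h4, mul_assoc, sq h hs, mul_one]
    have h4 := hsg t ht z
    have h5 := hsg _ hs z
    simp only at h5
    have h6 : t.2 z * s z = 1 ∨ t.2 z * s z = -1 := by
      rcases h4 with a | a <;> rcases h5 with b | b <;> rw [a, b] <;> norm_num
    rcases h6 with h6 | h6
    · left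
      intro i
      rw [h3 i, h6, one_mul, hs']
    · right
      intro i
      rw [h3 i, h6]
      calc -1 * s i * c (t.1 i) = -(s i * c (t.1 i)) := by ring
        _ = -c i := by rw [hs']
  · obtain ⟨n, hn⟩ := hmul' e he.rel
    obtain ⟨i, hi⟩ := he.ne
    have hn0 : n ≠ 0 := by
      intro h1
      rw [h1, zero_smul] at hn
      rw [hn] at hi
      exact hi rfl
    have h1 := he.rel
    rw [hn] at h1
    exact hsat n c hn0 h1

end Pool.Agent.H344.SGB2
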